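import Pool.Agent.helper1.FI.SpecQ2

/-!
# Project fi (MP_baa4d7_al), block Q2: row QID (the idempotent `i`)
-/

set_option autoImplicit false

namespace Pool.Agent.FI

open Pool.Agent.helper58.DC Pool.Agent.DI Pool.Agent.GR Pool.Agent.OB

theorem QID_BC {G : Type} [Group G] [Finite G] (M : Ideal (integralClosure ℤ ℂ)) (K : Subgroup G)
    (θ : G → ℂ) : BC M K (Bl M K θ) := by
  constructor
  · intro ψ hψ
    exact hψ.1
  · intro ψ hψ ψ' hψ' h
    refine ⟨hψ', ?_⟩
    have h1 : SB M K ψ ψ' := h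
    exact h1.symm.trans hψ.2

theorem QID_cz {G : Type} [Group G] (u : G) : cz (Subgroup.zpowers u) = Subgroup.centralizer {u} := by
  ext g
  rw [Subgroup.mem_centralizer_iff, Subgroup.mem_centralizer_singleton_iff]
  constructor
  · intro h
    exact (h u (Subgroup.mem_zpowers u)).symm
  · rintro h _ ⟨k, rfl⟩
    have h1 : Commute u g := h.symm
    exact (h1.zpow_left k).eq

theorem QID (hQAA : QAA_stmt) (hQD1 : QD1_stmt) (hQD2 : QD2_stmt) (hIDP : IDP_stmt) (hPLF : PLF_stmt)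
    (hIDM : IDM_stmt) (hEIN : EIN_stmt) : QID_stmt := by
  intro p M hS G _ _ D x θ χ hR P hP
  obtain ⟨a, ha, hinv⟩ := hQAA p M hS G D x θ χ hR P hP
  obtain ⟨n, c, hc, hidm, N₀, hN⟩ := hIDP p M hS G (cz P) a ha.sup ha.int
  obtain ⟨-, -, -, -, f5, f6, -, -⟩ := hPLF G a
  have hDC : D ≤ cz D := by
    intro d hd
    rw [Subgroup.mem_centralizer_iff]
    intro u hu
    exact hR.com u hu d hd
  have hCL : cz D ≤ cz P := Subgroup.centralizer_le hP
  have hPG : IsPGroup p D := hR.dfa.pgrp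
  have hB : ∀ K : Subgroup G, Bl M K θ ⊆ IrrOn K := fun K ψ hψ => hψ.1
  have hInvD : Inv D a := fun s hs => ha.inv s (hDC hs)
  refine ⟨plv n c a, hidm, (f5 _ hinv n c).2, (f6 _).1 ha.left n c, (f6 _).2 ha.right n c,
    (f6 _).2 ha.blk n c, ?_, ?_⟩
  · intro y hy
    have h1 := hQD1 p M hS G (cz P) D (cz D) hPG (inf_eq_right.2 hCL).symm a (eBl M (cz D) θ) ha.sup
      ha.int hInvD (hEIN p M hS G (cz D) _ (QID_BC M (cz D) θ)) (hIDM G (cz D) _ (hB _)).2.2.1 ha.cen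
      n c (max N₀ 1) hc (le_max_right _ _) (hN _ (le_max_left _ _)) y
    have h2 : rsk (cz D) (plv n c a) y = plv n c a y := by
      unfold rsk
      rw [if_pos hy]
    rwa [h2] at h1
  · rintro K ⟨u, hu, rfl⟩
    have hz : Subgroup.zpowers u ≤ D := Subgroup.zpowers_le.2 hu
    have hCK : cz D ≤ Cz (cz P) u := by
      intro g hg
      refine Subgroup.mem_inf.2 ⟨hCL hg, ?_⟩
      rw [Subgroup.mem_centralizer_singleton_iff]
      rw [Subgroup.mem_centralizer_iff] at hg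
      exact (hg u hu).symm
    have hK : Cz (cz P) u = cz P ⊓ cz (Subgroup.zpowers u) := by
      rw [QID_cz]
      rfl
    exact hQD2 p M hS G (cz P) (Subgroup.zpowers u) (Cz (cz P) u) (cz D) (hPG.to_le hz) hK hCK a
      (eBl M (cz D) θ) (eBl M (Cz (cz P) u) θ) ha.sup ha.int (fun s hs => hInvD s (hz hs)) ha.inv
      (hIDM G (cz D) _ (hB _)).1.2 ha.left (hIDM G _ _ (hB _)).1
      (hEIN p M hS G _ _ (QID_BC M _ θ)) (hIDM G _ _ (hB _)).2.2.1 (ha.loc u hu) n c N₀ hc hidm.idem hN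

end Pool.Agent.FI
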